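import Mathlib

/-!
Project H870-NOZ (MP_03ede7_an, S03700): a classical solution of the density constrained mean field
game system which does not minimise (V). Flow through a nozzle with two throats and a chamber.
-/

set_option autoImplicit false

open MeasureTheory Set
open scoped ContDiff

namespace H870N

abbrev E2 := EuclideanSpace ℝ (Fin 2)

noncomputable def e0 : E2 := EuclideanSpace.single 0 1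
noncomputable def e1 : E2 := EuclideanSpace.single 1 1

/-- open rectangle -/
def rect (L R h : ℝ) : Set E2 := {u | L < u 0 ∧ u 0 < R ∧ |u 1| < h}

/-- potential-stream coordinates of a steady flow: `Y` maps (q, y) to the point on the streamline `y`
where the potential is `q`; `V` = speed, `r` = density -/
structure Geo (Y Xi : E2 → E2) (V r : E2 → ℝ) (L R h : ℝ) : Prop where
  hY : ContDiffOn ℝ 1 Y (rect L R h)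
  hXi : ContDiffOn ℝ 1 Xi (Y '' rect L R h)
  hopen : IsOpen (Y '' rect L R h)
  left : ∀ u ∈ rect L R h, Xi (Y u) = u
  hV : ContinuousOn V (rect L R h)
  hr : ContinuousOn r (rect L R h)
  Vpos : ∀ u ∈ rect L R h, 0 < V u ∧ V u ≤ 2
  rpos : ∀ u ∈ rect L R h, 0 < r u ∧ r u ≤ 1
  n0 : ∀ u ∈ rect L R h, ‖fderiv ℝ Y u e0‖ = 1 / V u
  n1 : ∀ u ∈ rect L R h, ‖fderiv ℝ Y u e1‖ = 1 / (V u * r u)
  orth : ∀ u ∈ rect L R h, inner ℝ (fderiv ℝ Y u e0) (fderiv ℝ Y u e1) = 0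

/-- the pressure -/
structure Pres (Y : E2 → E2) (V r : E2 → ℝ) (L R h T : ℝ) (p : ℝ × E2 → ℝ) : Prop where
  c1 : ContDiffOn ℝ 1 p (Ioo (-T) T ×ˢ (Y '' rect L R h))
  nonneg : ∀ t ∈ Ioo (-T) T, ∀ u ∈ rect L R h, 0 ≤ p (t, Y u)
  zero : ∀ t ∈ Ioo (-T) T, ∀ u ∈ rect L R h, r u < 1 → p (t, Y u) = 0
  eq : ∀ t ∈ Ioo 0 T, ∀ u ∈ rect L R h,
    deriv (fun s => p (s, Y u)) t =
      1 / 2 * ‖gradient (fun y => p (t, y)) (Y u)‖ ^ 2 - 1 / 2 * (V u ^ 2 - 1)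

/-! ### The competitors, in the coordinates -/

/-- normalised parabola on [a, b] -/
noncomputable def tent (a b x : ℝ) : ℝ := max 0 ((x - a) * (b - x)) * (6 / (b - a) ^ 3)

/-- derivative of the profile: source in the chamber (a, b), sink in the collar (c, d) -/
noncomputable def gp (a b c d x : ℝ) : ℝ := tent a b x - tent c d x
noncomputable def gg (a b c d x : ℝ) : ℝ := ∫ y in a..x, gp a b c d y

/-- perturbation of the mass density and of the flux; eta_t + Th_q = 0 -/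
noncomputable def et (a b c d T t x : ℝ) : ℝ := -(t * (T - t)) * gp a b c d x
noncomputable def Th (a b c d T t x : ℝ) : ℝ := (T - 2 * t) * gg a b c d x

/-- density -/
noncomputable def rho (Xi : E2 → E2) (V r : E2 → ℝ) (a b c d T lm lp ε : ℝ) (t : ℝ) (x : E2) : ℝ :=
  open scoped Classical in
  if lm + t < (Xi x) 0 ∧ (Xi x) 0 < lp + t then
    r (Xi x) * (1 + ε * et a b c d T t ((Xi x) 0) * V (Xi x) ^ 2) else 0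

/-- steady velocity -/
noncomputable def vel0 (Y Xi : E2 → E2) (V : E2 → ℝ) (x : E2) : E2 :=
  (V (Xi x)) ^ 2 • fderiv ℝ Y (Xi x) e0

/-- velocity -/
noncomputable def vel (Y Xi : E2 → E2) (V : E2 → ℝ) (a b c d T ε : ℝ) (t : ℝ) (x : E2) : E2 :=
  ((1 + ε * Th a b c d T t ((Xi x) 0)) / (1 + ε * et a b c d T t ((Xi x) 0) * V (Xi x) ^ 2)) •
    vel0 Y Xi V x

/-- the admissibility predicate of the problem (d = 2) -/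
def AdmP (Ω : Set E2) (T : ℝ) (ρ₀ : E2 → ℝ) (ρ : ℝ → E2 → ℝ) (v : ℝ → E2 → E2) : Prop :=
  (AEMeasurable (Function.uncurry ρ) (volume.restrict (Set.Ioo 0 T ×ˢ Ω)) ∧
       AEMeasurable (Function.uncurry v) (volume.restrict (Set.Ioo 0 T ×ˢ Ω)) ∧
       (∀ t ∈ Set.Icc 0 T, IntegrableOn (ρ t) Ω ∧ (∫ x in Ω, ρ t x) = 1 ∧
          ∀ᵐ x ∂(volume.restrict Ω), 0 ≤ ρ t x ∧ ρ t x ≤ 1) ∧
       (∫⁻ z in Set.Ioo 0 T ×ˢ Ω, ENNReal.ofReal (‖v z.1 z.2‖ ^ 2 * ρ z.1 z.2)) < ⊤ ∧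
       (∀ᵐ x ∂(volume.restrict Ω), ρ 0 x = ρ₀ x) ∧
       (∀ ψ : EuclideanSpace ℝ (Fin 2) → ℝ, ContDiffOn ℝ 1 ψ (closure Ω) →
          (∃ K : NNReal, LipschitzOnWith K (fun t => ∫ x in Ω, ψ x * ρ t x) (Set.Icc 0 T)) ∧
          ∀ᵐ t ∂(volume.restrict (Set.Ioo 0 T)),
            HasDerivAt (fun s => ∫ x in Ω, ψ x * ρ s x)
              (∫ x in Ω, inner ℝ (gradient ψ x) (v t x) * ρ t x) t))

/-- kinetic energy -/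
noncomputable def Kin (Ω : Set E2) (T : ℝ) (ρ : ℝ → E2 → ℝ) (v : ℝ → E2 → E2) : ℝ :=
  (∫⁻ z in Set.Ioo 0 T ×ˢ Ω, ENNReal.ofReal (‖v z.1 z.2‖ ^ 2 / 2 * ρ z.1 z.2)).toReal

/-- all the numbers -/
structure Par (V r : E2 → ℝ) (L R h0 L1 R1 h cL cR a b c d lm lp T ϑ : ℝ) : Prop where
  o1 : L < L1
  o2 : L1 < lm
  o3 : lm + T < cL
  o4 : cL < a
  o5 : a < b
  o6 : b < cR
  o7 : cR < c
  o8 : c < d
  o9 : d < lp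
  o10 : lp + T < R1
  o11 : R1 < R
  hT : 0 < T
  hh : 0 < h
  hh0 : h < h0
  hϑ : 0 < ϑ
  Vl : ∀ u ∈ rect L R h0, u 0 < cL → V u = 1
  Vr : ∀ u ∈ rect L R h0, cR < u 0 → V u = 1 ∧ r u < 1
  Vc : ∀ u ∈ rect L R h0, a < u 0 → u 0 < b → V u ^ 2 ≤ 1 - ϑ

/-- change of variables -/
def TaskCV : Prop := ∀ (Y Xi : E2 → E2) (V r : E2 → ℝ) (L R h0 : ℝ), Geo Y Xi V r L R h0 →
  ∀ (A : Set E2), A ⊆ rect L R h0 → MeasurableSet A → ∀ f : E2 → ℝ,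
    (IntegrableOn f (Y '' A) ↔ IntegrableOn (fun u => f (Y u) / (V u ^ 2 * r u)) A) ∧
    (∫ x in Y '' A, f x) = ∫ u in A, f (Y u) / (V u ^ 2 * r u)

/-- total mass, as a function of the width: there is a width with mass 1 -/
def TaskMass : Prop := ∀ (V : E2 → ℝ) (L R h0 cL cR lm lp : ℝ), L < lm → lm < cL → cL < cR →
  cR < lp → lp < R → 0 < h0 → ContinuousOn V (rect L R h0) →
  (∀ u ∈ rect L R h0, 0 < V u ∧ V u ≤ 2) → 1 < (cR - cL) * h0 / 2 →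
  ∃ h, 0 < h ∧ h < h0 ∧ (∫ u in rect lm lp h, 1 / V u ^ 2) = 1

/-- profile -/
def TaskProf : Prop := ∀ (a b c d T : ℝ), a < b → b < c → c < d → 0 < T →
  Continuous (gp a b c d) ∧ (∀ x, HasDerivAt (gg a b c d) (gp a b c d x) x) ∧
  (∀ x, x ≤ a → gg a b c d x = 0) ∧ (∀ x, d ≤ x → gg a b c d x = 0) ∧
  (∀ x, 0 ≤ gg a b c d x ∧ gg a b c d x ≤ 1) ∧
  (∀ x, (x ≤ a ∨ d ≤ x ∨ (b ≤ x ∧ x ≤ c)) → gp a b c d x = 0) ∧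
  (∀ x, a < x → x < b → 0 ≤ gp a b c d x) ∧ (∀ x, c < x → x < d → gp a b c d x ≤ 0) ∧
  (∃ C, ∀ x, |gp a b c d x| ≤ C) ∧
  (∫ x in a..b, gp a b c d x) = 1 ∧ (∫ x in c..d, gp a b c d x) = -1

/-- the weak continuity equation in the coordinates. `m` = 1 / V^2 is 1 near both ends. -/
def TaskCE : Prop := TaskProf → ∀ (m F : E2 → ℝ) (L1 R1 h cL cR a b c d lm lp T ε C : ℝ),
  L1 < lm → lm + T < cL → cL < a → a < b → b < cR → cR < c → c < d → d < lp → lp + T < R1 →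
  0 < T → 0 < h → ContinuousOn m (rect L1 R1 h) → (∀ u ∈ rect L1 R1 h, |m u| ≤ C) →
  (∀ u ∈ rect L1 R1 h, u 0 < cL → m u = 1) → (∀ u ∈ rect L1 R1 h, cR < u 0 → m u = 1) →
  ContDiffOn ℝ 1 F (rect L1 R1 h) → (∀ u ∈ rect L1 R1 h, |F u| ≤ C ∧ ‖fderiv ℝ F u‖ ≤ C) →
  (∃ K : NNReal, LipschitzOnWith K (fun t => ∫ u in rect (lm + t) (lp + t) h,
    F u * (m u + ε * et a b c d T t (u 0))) (Icc 0 T)) ∧
  ∀ t ∈ Ioo 0 T, HasDerivAt (fun t => ∫ u in rect (lm + t) (lp + t) h,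
    F u * (m u + ε * et a b c d T t (u 0)))
    (∫ u in rect (lm + t) (lp + t) h, fderiv ℝ F u e0 * (1 + ε * Th a b c d T t (u 0))) t

/-- the competitors are admissible -/
def TaskAdm : Prop := TaskCV → TaskProf → TaskCE →
  ∀ (Y Xi : E2 → E2) (V r : E2 → ℝ) (L R h0 L1 R1 h cL cR a b c d lm lp T ϑ : ℝ),
  Geo Y Xi V r L R h0 → Par V r L R h0 L1 R1 h cL cR a b c d lm lp T ϑ →
  (∫ u in rect lm lp h, 1 / V u ^ 2) = 1 →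
  ∃ ε₀ > 0, ∀ ε, 0 ≤ ε → ε ≤ ε₀ →
    AdmP (Y '' rect L1 R1 h) T (rho Xi V r a b c d T lm lp 0 0)
      (rho Xi V r a b c d T lm lp ε) (vel Y Xi V a b c d T ε)

/-- the kinetic energy decreases -/
def TaskKin : Prop := TaskCV → TaskProf →
  ∀ (Y Xi : E2 → E2) (V r : E2 → ℝ) (L R h0 L1 R1 h cL cR a b c d lm lp T ϑ : ℝ),
  Geo Y Xi V r L R h0 → Par V r L R h0 L1 R1 h cL cR a b c d lm lp T ϑ →
  ∃ ε₀ > 0, ∀ ε, 0 < ε → ε ≤ ε₀ →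
    Kin (Y '' rect L1 R1 h) T (rho Xi V r a b c d T lm lp ε) (vel Y Xi V a b c d T ε) <
    Kin (Y '' rect L1 R1 h) T (rho Xi V r a b c d T lm lp 0) (vel Y Xi V a b c d T 0)

/-! ### Short time solution of the Hamilton-Jacobi equation U_t = |grad U|^2 / 2 - Q -/

/-- path with control `h` which ends at `x` -/
noncomputable def path (t : ℝ) (x : E2) (h : ℝ → E2) (σ : ℝ) : E2 := x - t • ∫ τ in σ..1, h τ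

/-- Euler-Lagrange map -/
noncomputable def EL (Q p0 : E2 → ℝ) (t : ℝ) (x : E2) (h : ℝ → E2) (σ : ℝ) : E2 :=
  - gradient p0 (path t x h 0) + t • ∫ τ in (0 : ℝ)..σ, gradient Q (path t x h τ)

/-- payoff -/
noncomputable def Jf (Q p0 : E2 → ℝ) (t : ℝ) (x : E2) (h : ℝ → E2) : ℝ :=
  p0 (path t x h 0) - t * ∫ σ in (0 : ℝ)..1, (1 / 2 * ‖h σ‖ ^ 2 + Q (path t x h σ))

/-- fixed point (Banach) with Lipschitz dependence -/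
def TaskHJ1 : Prop := ∀ Q p0 : E2 → ℝ, ContDiff ℝ ∞ Q → ContDiff ℝ ∞ p0 → HasCompactSupport Q →
  HasCompactSupport p0 → ∃ (T K : ℝ) (H : ℝ → E2 → ℝ → E2), 0 < T ∧
    (∀ t x, Continuous (H t x)) ∧
    (∀ t ∈ Icc (-T) T, ∀ t' ∈ Icc (-T) T, ∀ x x', ∀ σ ∈ Icc (0 : ℝ) 1,
      ‖H t x σ - H t' x' σ‖ ≤ K * (|t - t'| + ‖x - x'‖)) ∧
    ∀ t ∈ Icc (-T) T, ∀ x, ∀ σ ∈ Icc (0 : ℝ) 1, H t x σ = EL Q p0 t x (H t x) σ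

/-- the payoff is stationary to second order at critical paths -/
def TaskHJ2 : Prop := ∀ Q p0 : E2 → ℝ, ContDiff ℝ ∞ Q → ContDiff ℝ ∞ p0 → HasCompactSupport Q →
  HasCompactSupport p0 → ∃ C : ℝ, ∀ t ∈ Icc (-1 : ℝ) 1, ∀ x, ∀ h h' : ℝ → E2,
    Continuous h → Continuous h' → (∀ σ ∈ Icc (0 : ℝ) 1, h σ = EL Q p0 t x h σ) →
    ∀ η : ℝ, (∀ σ ∈ Icc (0 : ℝ) 1, ‖h' σ - h σ‖ ≤ η) →
    |Jf Q p0 t x h' - Jf Q p0 t x h| ≤ C * η ^ 2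

/-- HJ: existence of C^1 solutions for short time -/
def HJ : Prop := ∀ Q p0 : E2 → ℝ, ContDiff ℝ ∞ Q → ContDiff ℝ ∞ p0 → HasCompactSupport Q →
  HasCompactSupport p0 → ∃ (T : ℝ) (U : ℝ × E2 → ℝ), 0 < T ∧
    ContDiffOn ℝ 1 U (Ioo (-T) T ×ˢ univ) ∧ (∀ x, U (0, x) = p0 x) ∧
    ∀ t ∈ Ioo (-T) T, ∀ x, deriv (fun s => U (s, x)) t =
      1 / 2 * ‖gradient (fun y => U (t, y)) x‖ ^ 2 - Q x

/-- envelope theorem -/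
def TaskHJ3 : Prop := TaskHJ1 → TaskHJ2 → HJ

/-- uniqueness and finite speed of propagation for C^1 solutions -/
def TaskLoc : Prop := ∀ (O : Set E2) (Q : E2 → ℝ) (U1 U2 : ℝ × E2 → ℝ) (T : ℝ), 0 < T →
  IsOpen O → ContDiffOn ℝ 1 U1 (Ioo (-T) T ×ˢ O) → ContDiffOn ℝ 1 U2 (Ioo (-T) T ×ˢ O) →
  (∀ t ∈ Ioo 0 T, ∀ x ∈ O, deriv (fun s => U1 (s, x)) t =
      1 / 2 * ‖gradient (fun y => U1 (t, y)) x‖ ^ 2 - Q x) →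
  (∀ t ∈ Ioo 0 T, ∀ x ∈ O, deriv (fun s => U2 (s, x)) t =
      1 / 2 * ‖gradient (fun y => U2 (t, y)) x‖ ^ 2 - Q x) →
  (∀ x ∈ O, U1 (0, x) = U2 (0, x)) → ∀ K ⊆ O, IsCompact K →
  ∃ T', 0 < T' ∧ T' < T ∧ ∀ t ∈ Icc 0 T', ∀ x ∈ K, U1 (t, x) = U2 (t, x)

/-! ### The pressure -/

/-- profiles of the steady pressure near the two throats, and a smooth positive interpolation -/
def TaskPi : Prop := ∀ δ : ℝ, 0 < δ → ∃ P1 P2 P : ℝ → ℝ,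
  ContDiff ℝ 1 P1 ∧ ContDiff ℝ 1 P2 ∧ ContDiffOn ℝ ∞ P (Ioo (-Real.pi) (2 * Real.pi)) ∧
  (∀ l, l ≤ -Real.pi → P1 l = 0) ∧ (∀ l, 2 * Real.pi ≤ l → P2 l = 0) ∧
  (∀ l, 0 ≤ P1 l) ∧ (∀ l, 0 ≤ P2 l) ∧
  (∀ l, -Real.pi ≤ l → l ≤ 0 → (deriv P1 l) ^ 2 = -2 * δ * Real.exp l * Real.sin l) ∧
  (∀ l, Real.pi ≤ l → l ≤ 2 * Real.pi → (deriv P2 l) ^ 2 = -2 * δ * Real.exp l * Real.sin l) ∧
  (∀ l, -Real.pi < l → l < 2 * Real.pi → 0 < P l) ∧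
  (∀ l, -Real.pi < l → l ≤ -(Real.pi / 4) → P l = P1 l) ∧
  (∀ l, 5 * Real.pi / 4 ≤ l → l < 2 * Real.pi → P l = P2 l)

/-- cut off of a smooth function -/
def TaskCut : Prop := ∀ (O K : Set E2) (f : E2 → ℝ), IsOpen O → IsCompact K → K ⊆ O →
  ContDiffOn ℝ ∞ f O → ∃ g : E2 → ℝ, ContDiff ℝ ∞ g ∧ HasCompactSupport g ∧
    ∃ N, IsOpen N ∧ K ⊆ N ∧ N ⊆ O ∧ ∀ x ∈ N, g x = f x

/-- the pressure -/
def TaskPres : Prop := HJ → TaskLoc → TaskPi → TaskCut →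
  ∀ (O O' : Set E2) (l Q : E2 → ℝ) (δ : ℝ), 0 < δ → IsOpen O → IsOpen O' →
  IsCompact (closure O') → closure O' ⊆ O → ContDiffOn ℝ 1 l O →
  ContDiffOn ℝ ∞ l {x | x ∈ O ∧ -Real.pi < l x ∧ l x < 2 * Real.pi} →
  ContDiffOn ℝ ∞ Q {x | x ∈ O ∧ -Real.pi < l x ∧ l x < 2 * Real.pi} →
  (∀ x ∈ O, -Real.pi ≤ l x → l x ≤ 2 * Real.pi →
    (-2 * δ * Real.exp (l x) * Real.sin (l x)) * ‖gradient l x‖ ^ 2 = 2 * Q x) →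
  (∀ x ∈ O, (l x < -Real.pi ∨ 2 * Real.pi < l x) → Q x = 0) →
  ∃ (T : ℝ) (p : ℝ × E2 → ℝ), 0 < T ∧ ContDiffOn ℝ 1 p (Ioo (-T) T ×ˢ O') ∧
    (∀ t ∈ Ioo (-T) T, ∀ x ∈ O', 0 ≤ p (t, x)) ∧
    (∀ t ∈ Ioo (-T) T, ∀ x ∈ O', (l x < -Real.pi ∨ 2 * Real.pi < l x) → p (t, x) = 0) ∧
    ∀ t ∈ Ioo 0 T, ∀ x ∈ O', deriv (fun s => p (s, x)) t =
      1 / 2 * ‖gradient (fun y => p (t, y)) x‖ ^ 2 - Q x

/-! ### Geometry, in the complex plane: w = q + i y -/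

noncomputable def Bf (s : ℂ) : ℂ := Complex.exp (Complex.I * Complex.log s)
/-- derivative of Bf -/
noncomputable def Bp (s : ℂ) : ℂ := Complex.I * Complex.exp ((Complex.I - 1) * Complex.log s)
noncomputable def lam (s : ℂ) : ℝ := Real.log ‖s‖ - Complex.arg s

def crect (L R h : ℝ) : Set ℂ := {w | L < w.re ∧ w.re < R ∧ |w.im| < h}

/-- `σ` inverts `s ↦ s + δ Bf s` -/
def IsInv (δ : ℝ) (σ : ℂ → ℂ) : Prop := ∀ w ∈ crect (1 / 32) 550 (1 / 180),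
  σ w ∈ crect (1 / 35) 560 (1 / 150) ∧ ‖σ w - w‖ ≤ 2 * δ ∧ σ w + δ * Bf (σ w) = w ∧
  1 + δ * Bp (σ w) ≠ 0 ∧ HasDerivAt σ (1 / (1 + δ * Bp (σ w))) w

def TaskInv : Prop := ∃ δ₀ : ℝ, 0 < δ₀ ∧ ∀ δ : ℝ, 0 < δ → δ ≤ δ₀ → ∃ σ : ℂ → ℂ, IsInv δ σ

/-- the curve `lam = κ` in the coordinate w is `w.re = q w.im`; there `s = exp (κ + (1 + i) θ)` -/
structure IsCurve (κ : ℝ) (σ : ℂ → ℂ) (q θ : ℝ → ℝ) : Prop where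
  hq : ContDiffOn ℝ ∞ q (Ioo (-(1 / 180)) (1 / 180))
  hθ : ContDiffOn ℝ ∞ θ (Ioo (-(1 / 180)) (1 / 180))
  mem : ∀ y ∈ Ioo (-(1 / 180) : ℝ) (1 / 180), (⟨q y, y⟩ : ℂ) ∈ crect (1 / 29) 540 (1 / 180)
  eq : ∀ y ∈ Ioo (-(1 / 180) : ℝ) (1 / 180),
    σ ⟨q y, y⟩ = Complex.exp (κ + (1 + Complex.I) * θ y)
  small : ∀ y ∈ Ioo (-(1 / 180) : ℝ) (1 / 180), |θ y| ≤ 1 / 4
  dpos : ∀ y ∈ Ioo (-(1 / 180) : ℝ) (1 / 180), 0 < deriv θ y ∧ deriv θ y ≤ 100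
  lt : ∀ x y : ℝ, (⟨x, y⟩ : ℂ) ∈ crect (1 / 32) 550 (1 / 180) →
    (lam (σ ⟨x, y⟩) < κ ↔ x < q y) ∧ (lam (σ ⟨x, y⟩) = κ ↔ x = q y)

def TaskCurve : Prop := ∃ δ₀ : ℝ, 0 < δ₀ ∧ ∀ (δ : ℝ) (σ : ℂ → ℂ), 0 < δ → δ ≤ δ₀ → IsInv δ σ →
  ∀ κ : ℝ, κ = -Real.pi ∨ κ = 2 * Real.pi → ∃ q θ : ℝ → ℝ, IsCurve κ σ q θ

/-- gluing of two C^1 functions along a set where they agree to first order -/
def TaskGlue : Prop := ∀ (O : Set ℂ) (F G : ℂ → ℂ) (F' G' : ℂ → ℂ →L[ℝ] ℂ) (g : ℂ → ℝ), IsOpen O →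
  ContinuousOn g O →
  (∀ w ∈ O, g w ≤ 0 → HasFDerivAt F (F' w) w) → (∀ w ∈ O, 0 ≤ g w → HasFDerivAt G (G' w) w) →
  ContinuousOn F' {w | w ∈ O ∧ g w ≤ 0} → ContinuousOn G' {w | w ∈ O ∧ 0 ≤ g w} →
  (∀ w ∈ O, g w = 0 → F w = G w ∧ F' w = G' w) →
  open scoped Classical in
  (∀ w ∈ O, HasFDerivAt (fun w => if g w < 0 then F w else G w)
    (if g w < 0 then F' w else G' w) w) ∧
  ContinuousOn (fun w => if g w < 0 then F' w else G' w) O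

/-- the flow in the complex plane; `a` = Y_q, `b` = Y_y -/
structure GeoC (Y : ℂ → ℂ) (V r Lam : ℂ → ℝ) (a b : ℂ → ℂ) (δ ϑ : ℝ) : Prop where
  hδ : 0 < δ
  hϑ : 0 < ϑ
  hd : ∀ w ∈ crect (1 / 30) 540 (1 / 200),
    HasFDerivAt Y (Complex.reCLM.smulRight (a w) + Complex.imCLM.smulRight (b w)) w
  ha : ContinuousOn a (crect (1 / 30) 540 (1 / 200))
  hb : ContinuousOn b (crect (1 / 30) 540 (1 / 200))
  near : ∀ w ∈ crect (1 / 30) 540 (1 / 200), ‖a w - 1‖ ≤ 1 / 8 ∧ ‖b w - Complex.I‖ ≤ 1 / 8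
  hV : ContinuousOn V (crect (1 / 30) 540 (1 / 200))
  hr : ContinuousOn r (crect (1 / 30) 540 (1 / 200))
  Vpos : ∀ w ∈ crect (1 / 30) 540 (1 / 200), 0 < V w ∧ V w ≤ 2
  rpos : ∀ w ∈ crect (1 / 30) 540 (1 / 200), 0 < r w ∧ r w ≤ 1
  na : ∀ w ∈ crect (1 / 30) 540 (1 / 200), ‖a w‖ = 1 / V w
  nb : ∀ w ∈ crect (1 / 30) 540 (1 / 200), ‖b w‖ = 1 / (V w * r w)
  orth : ∀ w ∈ crect (1 / 30) 540 (1 / 200), (a w * (starRingEnd ℂ) (b w)).re = 0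
  lamS : ContDiffOn ℝ ∞ Lam (crect (1 / 30) 540 (1 / 200))
  out : ∀ w ∈ crect (1 / 30) 540 (1 / 200), (Lam w < -Real.pi ∨ 2 * Real.pi < Lam w) →
    V w = 1 ∧ r w < 1
  mid : ∀ w ∈ crect (1 / 30) 540 (1 / 200), -Real.pi ≤ Lam w → Lam w ≤ 2 * Real.pi → r w = 1
  eik : ∀ w ∈ crect (1 / 30) 540 (1 / 200), -Real.pi ≤ Lam w → Lam w ≤ 2 * Real.pi →
    (-2 * δ * Real.exp (Lam w) * Real.sin (Lam w)) * ‖fderiv ℝ Lam w‖ ^ 2 * V w ^ 2 = V w ^ 2 - 1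
  smY : ContDiffOn ℝ ∞ Y {w | w ∈ crect (1 / 30) 540 (1 / 200) ∧ -Real.pi < Lam w ∧
    Lam w < 2 * Real.pi}
  smV : ContDiffOn ℝ ∞ (fun w => V w ^ 2) {w | w ∈ crect (1 / 30) 540 (1 / 200) ∧
    -Real.pi < Lam w ∧ Lam w < 2 * Real.pi}
  l1 : ∀ w ∈ crect (1 / 30) 540 (1 / 200), w.re < 1 / 28 → Lam w < -Real.pi
  l2 : ∀ w ∈ crect (1 / 30) 540 (1 / 200), 537 < w.re → 2 * Real.pi < Lam w
  cham : ∀ w ∈ crect (1 / 30) 540 (1 / 200), 2 < w.re → w.re < 3 → V w ^ 2 ≤ 1 - ϑ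

/-- speed in the core -/
noncomputable def Vm (δ : ℝ) (s : ℂ) : ℝ := ‖1 + δ * Bp s‖ / ‖1 - δ * Bp s‖

/-- facts about the core flow -/
def TaskCore : Prop := ∃ δ₀ : ℝ, 0 < δ₀ ∧ ∀ (δ : ℝ) (σ : ℂ → ℂ), 0 < δ → δ ≤ δ₀ → IsInv δ σ →
  ∀ w ∈ crect (1 / 32) 550 (1 / 180),
    1 - δ * Bp (σ w) ≠ 0 ∧
    HasDerivAt (fun w => w - 2 * δ * Bf (σ w)) ((1 - δ * Bp (σ w)) / (1 + δ * Bp (σ w))) w ∧
    ‖(1 - δ * Bp (σ w)) / (1 + δ * Bp (σ w)) - 1‖ ≤ 1 / 16 ∧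
    0 < Vm δ (σ w) ∧ Vm δ (σ w) ≤ 2 ∧
    (-2 * δ * Real.exp (lam (σ w)) * Real.sin (lam (σ w))) * ‖fderiv ℝ (fun w => lam (σ w)) w‖ ^ 2 *
      Vm δ (σ w) ^ 2 = Vm δ (σ w) ^ 2 - 1 ∧
    (w.re < 1 / 28 → |w.im| < 1 / 200 → lam (σ w) < -Real.pi) ∧
    (537 < w.re → 2 * Real.pi < lam (σ w)) ∧
    (2 < w.re → w.re < 3 → Vm δ (σ w) ^ 2 ≤ 1 - δ / 4)

/-- the core is smooth -/
def TaskSm : Prop := ∀ (δ : ℝ) (σ : ℂ → ℂ), 0 < δ → δ ≤ 1 / 1000 → IsInv δ σ →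
  ContDiffOn ℝ ∞ σ (crect (1 / 32) 550 (1 / 180)) ∧
  ContDiffOn ℝ ∞ (fun w => lam (σ w)) (crect (1 / 32) 550 (1 / 180)) ∧
  ContDiffOn ℝ ∞ (fun w => Bf (σ w)) (crect (1 / 32) 550 (1 / 180)) ∧
  ContDiffOn ℝ ∞ (fun w => Bp (σ w)) (crect (1 / 32) 550 (1 / 180)) ∧
  ContDiffOn ℝ ∞ (fun w => Vm δ (σ w) ^ 2) (crect (1 / 32) 550 (1 / 180))

/-- direction of the flow on the curve `lam = κ`; `e = 1` for κ = -π, `e = -1` for κ = 2π -/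
noncomputable def al (δ κ e : ℝ) (θ : ℝ → ℝ) (y : ℝ) : ℝ :=
  e * (2 * Real.arctan (δ * Real.exp (-κ - 2 * θ y)))

/-- parametrisation of the collar -/
noncomputable def Yk (δ κ e : ℝ) (σ : ℂ → ℂ) (q θ : ℝ → ℝ) (w : ℂ) : ℂ :=
  ((⟨q w.im, w.im⟩ : ℂ) - 2 * δ * Bf (σ ⟨q w.im, w.im⟩)) +
    ((w.re - q w.im : ℝ) : ℂ) * Complex.exp (Complex.I * al δ κ e θ w.im)

/-- the collar -/
def TaskCollar : Prop := TaskCore → TaskSm → ∃ δ₀ : ℝ, 0 < δ₀ ∧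
  ∀ (δ κ e : ℝ) (σ : ℂ → ℂ) (q θ : ℝ → ℝ),
  0 < δ → δ ≤ δ₀ → IsInv δ σ → IsCurve κ σ q θ →
  ((κ = -Real.pi ∧ e = 1) ∨ (κ = 2 * Real.pi ∧ e = -1)) →
  (∀ y ∈ Ioo (-(1 / 180) : ℝ) (1 / 180),
    (1 - δ * Bp (σ ⟨q y, y⟩)) / (1 + δ * Bp (σ ⟨q y, y⟩)) =
      Complex.exp (Complex.I * al δ κ e θ y) ∧
    Vm δ (σ ⟨q y, y⟩) = 1 ∧ e * deriv (al δ κ e θ) y < 0) ∧
  ContinuousOn (deriv (al δ κ e θ)) (Ioo (-(1 / 180)) (1 / 180)) ∧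
  ContinuousOn (al δ κ e θ) (Ioo (-(1 / 180)) (1 / 180)) ∧
  ∀ w ∈ crect (1 / 32) 550 (1 / 180),
    HasFDerivAt (Yk δ κ e σ q θ)
      (Complex.reCLM.smulRight (Complex.exp (Complex.I * al δ κ e θ w.im)) +
       Complex.imCLM.smulRight (Complex.I * Complex.exp (Complex.I * al δ κ e θ w.im) *
        ((1 + (w.re - q w.im) * deriv (al δ κ e θ) w.im : ℝ) : ℂ))) w ∧
    ‖Complex.exp (Complex.I * al δ κ e θ w.im) - 1‖ ≤ 1 / 16 ∧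
    ‖Complex.I * Complex.exp (Complex.I * al δ κ e θ w.im) *
        ((1 + (w.re - q w.im) * deriv (al δ κ e θ) w.im : ℝ) : ℂ) - Complex.I‖ ≤ 1 / 8

/-- the flow exists -/
def TaskGeoC : Prop := TaskInv → TaskCurve → TaskGlue → TaskCore → TaskSm → TaskCollar →
  ∃ (Y : ℂ → ℂ) (V r Lam : ℂ → ℝ) (a b : ℂ → ℂ) (δ ϑ : ℝ), GeoC Y V r Lam a b δ ϑ

/-- a C^1 map close to the identity is invertible -/
def TaskNear : Prop := ∀ (Y : E2 → E2) (L R h : ℝ), ContDiffOn ℝ 1 Y (rect L R h) →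
  (∀ u ∈ rect L R h, ‖fderiv ℝ Y u - ContinuousLinearMap.id ℝ E2‖ ≤ 1 / 2) →
  ∃ Xi : E2 → E2, (∀ u ∈ rect L R h, Xi (Y u) = u) ∧ IsOpen (Y '' rect L R h) ∧
    ContDiffOn ℝ 1 Xi (Y '' rect L R h) ∧
    ∀ W ⊆ rect L R h, IsOpen W → ContDiffOn ℝ ∞ Y W → IsOpen (Y '' W) ∧ ContDiffOn ℝ ∞ Xi (Y '' W)

/-- the flow, in the plane E2 -/
def GeoEx : Prop := ∃ (Y Xi : E2 → E2) (V r Lam : E2 → ℝ) (δ ϑ : ℝ), 0 < δ ∧ 0 < ϑ ∧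
  Geo Y Xi V r (1 / 30) 540 (1 / 200) ∧ ContDiffOn ℝ ∞ Lam (rect (1 / 30) 540 (1 / 200)) ∧
  (∀ u ∈ rect (1 / 30) 540 (1 / 200), (Lam u < -Real.pi ∨ 2 * Real.pi < Lam u) →
    V u = 1 ∧ r u < 1) ∧
  (∀ u ∈ rect (1 / 30) 540 (1 / 200), -Real.pi ≤ Lam u → Lam u ≤ 2 * Real.pi → r u = 1) ∧
  (∀ u ∈ rect (1 / 30) 540 (1 / 200), u 0 < 1 / 28 → Lam u < -Real.pi) ∧
  (∀ u ∈ rect (1 / 30) 540 (1 / 200), 537 < u 0 → 2 * Real.pi < Lam u) ∧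
  (∀ u ∈ rect (1 / 30) 540 (1 / 200), 2 < u 0 → u 0 < 3 → V u ^ 2 ≤ 1 - ϑ) ∧
  ContDiffOn ℝ ∞ (fun x => Lam (Xi x)) (Y '' {u | u ∈ rect (1 / 30) 540 (1 / 200) ∧
    -Real.pi < Lam u ∧ Lam u < 2 * Real.pi}) ∧
  ContDiffOn ℝ ∞ (fun x => V (Xi x) ^ 2) (Y '' {u | u ∈ rect (1 / 30) 540 (1 / 200) ∧
    -Real.pi < Lam u ∧ Lam u < 2 * Real.pi}) ∧
  (∀ u ∈ rect (1 / 30) 540 (1 / 200), -Real.pi ≤ Lam u → Lam u ≤ 2 * Real.pi →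
    (-2 * δ * Real.exp (Lam u) * Real.sin (Lam u)) *
      ‖gradient (fun x => Lam (Xi x)) (Y u)‖ ^ 2 = V u ^ 2 - 1)

/-- transfer from the complex plane to E2 -/
def TaskTrans : Prop := TaskNear →
  (∃ (Y : ℂ → ℂ) (V r Lam : ℂ → ℝ) (a b : ℂ → ℂ) (δ ϑ : ℝ), GeoC Y V r Lam a b δ ϑ) → GeoEx

end H870N
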