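import Pool.Agent.H870R4.Noz.Stmts

set_option autoImplicit false

open MeasureTheory Set
open scoped ContDiff

namespace H870N

lemma isOpen_rect (L R h : ℝ) : IsOpen (rect L R h) := by
  have h0 : Continuous (fun u : E2 => u 0) := by fun_prop
  have h1 : Continuous (fun u : E2 => |u 1|) := by fun_prop
  exact (isOpen_lt continuous_const h0).inter
    ((isOpen_lt h0 continuous_const).inter (isOpen_lt h1 continuous_const))

lemma rect_mono {L R h L' R' h' : ℝ} (a : L ≤ L') (b : R' ≤ R) (c : h' ≤ h) :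
    rect L' R' h' ⊆ rect L R h := fun u hu =>
  ⟨lt_of_le_of_lt a hu.1, lt_of_lt_of_le hu.2.1 b, lt_of_lt_of_le hu.2.2 c⟩

lemma Geo.mono {Y Xi : E2 → E2} {V r : E2 → ℝ} {L R h L' R' h' : ℝ} (g : Geo Y Xi V r L R h)
    (a : L ≤ L') (b : R' ≤ R) (c : h' ≤ h) : Geo Y Xi V r L' R' h' := by
  have hs : rect L' R' h' ⊆ rect L R h := rect_mono a b c
  have him : Y '' rect L' R' h' ⊆ Y '' rect L R h := image_mono hs
  have heq : Y '' rect L' R' h' = Y '' rect L R h ∩ Xi ⁻¹' rect L' R' h' := by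
    ext x
    constructor
    · rintro ⟨u, hu, rfl⟩
      refine ⟨⟨u, hs hu, rfl⟩, ?_⟩
      show Xi (Y u) ∈ rect L' R' h'
      rw [g.left u (hs hu)]
      exact hu
    · rintro ⟨⟨u, hu, rfl⟩, h2⟩
      have : Xi (Y u) ∈ rect L' R' h' := h2
      rw [g.left u hu] at this
      exact ⟨u, this, rfl⟩
  exact
    { hY := g.hY.mono hs
      hXi := g.hXi.mono him
      hopen := by
        rw [heq]
        exact g.hXi.continuousOn.isOpen_inter_preimage g.hopen (isOpen_rect _ _ _)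
      left := fun u hu => g.left u (hs hu)
      hV := g.hV.mono hs
      hr := g.hr.mono hs
      Vpos := fun u hu => g.Vpos u (hs hu)
      rpos := fun u hu => g.rpos u (hs hu)
      n0 := fun u hu => g.n0 u (hs hu)
      n1 := fun u hu => g.n1 u (hs hu)
      orth := fun u hu => g.orth u (hs hu) }

/-- closed rectangle -/
def crectE (L R h : ℝ) : Set E2 := {u | L ≤ u 0 ∧ u 0 ≤ R ∧ |u 1| ≤ h}

lemma isCompact_crectE (L R h : ℝ) : IsCompact (crectE L R h) := by
  have hcl : IsClosed (crectE L R h) := by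
    have h0 : Continuous (fun u : E2 => u 0) := by fun_prop
    have h1 : Continuous (fun u : E2 => |u 1|) := by fun_prop
    exact (isClosed_le continuous_const h0).inter
      ((isClosed_le h0 continuous_const).inter (isClosed_le h1 continuous_const))
  refine Metric.isCompact_of_isClosed_isBounded hcl ?_
  refine (Metric.isBounded_iff_subset_closedBall (0 : E2)).2 ⟨|L| + |R| + |h|, fun u hu => ?_⟩
  rw [mem_closedBall_zero_iff, EuclideanSpace.norm_eq]
  simp only [Fin.sum_univ_two, Real.norm_eq_abs, sq_abs]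
  have h0 : |u 0| ≤ |L| + |R| := by
    rw [abs_le]
    constructor
    · have := hu.1; have h1 := neg_abs_le L; have h2 := abs_nonneg R; linarith
    · have := hu.2.1; have h1 := le_abs_self R; have h2 := abs_nonneg L; linarith
  have h1 : |u 1| ≤ |h| := hu.2.2.trans (le_abs_self h)
  have h2 := abs_nonneg (u 0)
  have h3 := abs_nonneg (u 1)
  apply Real.sqrt_le_iff.2
  constructor
  · positivity
  · rw [← sq_abs (u 0), ← sq_abs (u 1)]
    nlinarith [abs_nonneg L, abs_nonneg R, abs_nonneg h]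

lemma rect_sub_crectE (L R h : ℝ) : rect L R h ⊆ crectE L R h :=
  fun _ hu => ⟨hu.1.le, hu.2.1.le, hu.2.2.le⟩

lemma crectE_sub {L R h L' R' h' : ℝ} (a : L < L') (b : R' < R) (c : h' < h) :
    crectE L' R' h' ⊆ rect L R h := fun _ hu =>
  ⟨lt_of_lt_of_le a hu.1, lt_of_le_of_lt hu.2.1 b, lt_of_le_of_lt hu.2.2 c⟩

lemma closure_image {Y Xi : E2 → E2} {V r : E2 → ℝ} {L R h L' R' h' : ℝ} (g : Geo Y Xi V r L R h)
    (a : L < L') (b : R' < R) (c : h' < h) :
    IsCompact (Y '' crectE L' R' h') ∧ closure (Y '' rect L' R' h') ⊆ Y '' crectE L' R' h' ∧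
    closure (Y '' rect L' R' h') ⊆ Y '' rect L R h ∧ IsCompact (closure (Y '' rect L' R' h')) := by
  have hc : IsCompact (Y '' crectE L' R' h') :=
    (isCompact_crectE L' R' h').image_of_continuousOn
      (g.hY.continuousOn.mono (crectE_sub a b c))
  have h1 : closure (Y '' rect L' R' h') ⊆ Y '' crectE L' R' h' :=
    closure_minimal (image_mono (rect_sub_crectE _ _ _)) hc.isClosed
  exact ⟨hc, h1, h1.trans (image_mono (crectE_sub a b c)), hc.of_isClosed_subset isClosed_closure h1⟩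

lemma e_decomp (v : E2) : v = (v 0) • e0 + (v 1) • e1 := by
  ext i
  fin_cases i <;> simp [e0, e1]

lemma Geo.hasFDerivY {Y Xi : E2 → E2} {V r : E2 → ℝ} {L R h : ℝ} (g : Geo Y Xi V r L R h)
    {u : E2} (hu : u ∈ rect L R h) : HasFDerivAt Y (fderiv ℝ Y u) u :=
  ((g.hY.contDiffAt ((isOpen_rect L R h).mem_nhds hu)).differentiableAt (by norm_num)).hasFDerivAt

lemma Geo.hasFDerivXi {Y Xi : E2 → E2} {V r : E2 → ℝ} {L R h : ℝ} (g : Geo Y Xi V r L R h)
    {u : E2} (hu : u ∈ rect L R h) : HasFDerivAt Xi (fderiv ℝ Xi (Y u)) (Y u) :=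
  ((g.hXi.contDiffAt (g.hopen.mem_nhds ⟨u, hu, rfl⟩)).differentiableAt (by norm_num)).hasFDerivAt

lemma Geo.comp {Y Xi : E2 → E2} {V r : E2 → ℝ} {L R h : ℝ} (g : Geo Y Xi V r L R h)
    {u : E2} (hu : u ∈ rect L R h) :
    (fderiv ℝ Xi (Y u)).comp (fderiv ℝ Y u) = ContinuousLinearMap.id ℝ E2 := by
  have h1 := (g.hasFDerivXi hu).comp u (g.hasFDerivY hu)
  have h2 : (Xi ∘ Y) =ᶠ[nhds u] id := by
    filter_upwards [(isOpen_rect L R h).mem_nhds hu] with w hw
    exact g.left w hw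
  exact (h1.congr_of_eventuallyEq h2.symm).unique (hasFDerivAt_id u)

lemma Geo.comp' {Y Xi : E2 → E2} {V r : E2 → ℝ} {L R h : ℝ} (g : Geo Y Xi V r L R h)
    {u : E2} (hu : u ∈ rect L R h) (x : E2) : fderiv ℝ Y u (fderiv ℝ Xi (Y u) x) = x := by
  have h1 := g.comp hu
  have h2 : ((fderiv ℝ Xi (Y u) : E2 →L[ℝ] E2) : E2 →ₗ[ℝ] E2) *
      ((fderiv ℝ Y u : E2 →L[ℝ] E2) : E2 →ₗ[ℝ] E2) = 1 := by
    ext1 v
    have := congrArg (fun f : E2 →L[ℝ] E2 => f v) h1
    simpa using this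
  have h3 := mul_eq_one_comm.1 h2
  have := congrArg (fun f : E2 →ₗ[ℝ] E2 => f x) h3
  simpa using this

/-- gradient of the potential -/
lemma Geo.grad {Y Xi : E2 → E2} {V r : E2 → ℝ} {L R h : ℝ} (g : Geo Y Xi V r L R h)
    {u : E2} (hu : u ∈ rect L R h) : HasGradientAt (fun x => (Xi x) 0) (vel0 Y Xi V (Y u)) (Y u) := by
  have h1 := g.hasFDerivXi hu
  have h2 : HasFDerivAt (fun x => (Xi x) 0)
      ((EuclideanSpace.proj (0 : Fin 2)).comp (fderiv ℝ Xi (Y u))) (Y u) :=
    (EuclideanSpace.proj (𝕜 := ℝ) (0 : Fin 2)).hasFDerivAt.comp (Y u) h1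
  rw [hasGradientAt_iff_hasFDerivAt]
  have key : InnerProductSpace.toDual ℝ E2 (vel0 Y Xi V (Y u)) =
      (EuclideanSpace.proj (0 : Fin 2)).comp (fderiv ℝ Xi (Y u)) := by
    ext x
    have hx := g.comp' hu x
    set v := fderiv ℝ Xi (Y u) x with hv
    have e : vel0 Y Xi V (Y u) = (V u) ^ 2 • fderiv ℝ Y u e0 := by
      unfold vel0
      rw [g.left u hu]
    have hV := (g.Vpos u hu).1
    have h9 : (V u) ^ 2 * (1 / V u) ^ 2 = 1 := by field_simp
    have h10 : inner ℝ (vel0 Y Xi V (Y u)) x = v 0 := by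
      rw [e, ← hx]
      conv_lhs => rw [e_decomp v]
      rw [map_add, map_smul, map_smul, inner_add_right, inner_smul_right,
        inner_smul_right, real_inner_smul_left, real_inner_smul_left, g.orth u hu,
        real_inner_self_eq_norm_sq, g.n0 u hu, h9]
      ring
    rw [InnerProductSpace.toDual_apply_apply, h10]
    rfl
  rw [key]
  exact h2

end H870N
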