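import Pool.Agent.H870R4.Noz.Fin1

set_option autoImplicit false

open MeasureTheory Set
open scoped ContDiff

namespace H870N

/-- admissibility depends only on the velocity inside -/
lemma AdmP.congr {Ω : Set E2} (hΩ : IsOpen Ω) {T : ℝ} {ρ₀ : E2 → ℝ} {ρ : ℝ → E2 → ℝ}
    {v v' : ℝ → E2 → E2} (hv : ∀ t ∈ Ioo 0 T, ∀ x ∈ Ω, v t x = v' t x) (h : AdmP Ω T ρ₀ ρ v) :
    AdmP Ω T ρ₀ ρ v' := by
  obtain ⟨h1, h2, h3, h4, h5, h6⟩ := h
  have hm : MeasurableSet (Ioo 0 T ×ˢ Ω) := measurableSet_Ioo.prod hΩ.measurableSet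
  refine ⟨h1, ?_, h3, ?_, h5, ?_⟩
  · refine h2.congr ?_
    filter_upwards [ae_restrict_mem hm] with z hz
    exact hv z.1 hz.1 z.2 hz.2
  · rw [← setLIntegral_congr_fun hm (f := fun z => ENNReal.ofReal (‖v z.1 z.2‖ ^ 2 * ρ z.1 z.2))]
    · exact h4
    · intro z hz
      beta_reduce
      rw [hv z.1 hz.1 z.2 hz.2]
  · intro ψ hψ
    refine ⟨(h6 ψ hψ).1, ?_⟩
    filter_upwards [(h6 ψ hψ).2, ae_restrict_mem measurableSet_Ioo] with t ht htm
    rw [← setIntegral_congr_fun hΩ.measurableSet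
      (f := fun x => inner ℝ (gradient ψ x) (v t x) * ρ t x)]
    · exact ht
    · intro x hx
      beta_reduce
      rw [hv t htm x hx]

lemma Kin.congr {Ω : Set E2} (hΩ : IsOpen Ω) {T : ℝ} {ρ : ℝ → E2 → ℝ}
    {v v' : ℝ → E2 → E2} (hv : ∀ t ∈ Ioo 0 T, ∀ x ∈ Ω, v t x = v' t x) :
    Kin Ω T ρ v = Kin Ω T ρ v' := by
  have hm : MeasurableSet (Ioo 0 T ×ˢ Ω) := measurableSet_Ioo.prod hΩ.measurableSet
  unfold Kin
  congr 1
  apply setLIntegral_congr_fun hm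
  intro z hz
  beta_reduce
  rw [hv z.1 hz.1 z.2 hz.2]

/-- the statement of the problem for d = 2 and the domain Ω -/
def MainP (Ω : Set E2) (T : ℝ) (Φ ρ₀ : E2 → ℝ) : Prop :=
  ∀ (φ p : ℝ × E2 → ℝ) (ρ : ℝ → E2 → ℝ),
    ContDiffOn ℝ 1 φ (Set.Icc 0 T ×ˢ closure Ω) →
    ContDiffOn ℝ 1 p (Set.Icc 0 T ×ˢ closure Ω) →
    (∀ t ∈ Set.Ioo 0 T, ∀ x ∈ Ω,
      deriv (fun s => φ (s, x)) t + ‖gradient (fun y => φ (t, y)) x‖ ^ 2 / 2
        = inner ℝ (gradient (fun y => φ (t, y)) x) (gradient (fun y => p (t, y)) x)) →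
    (∀ x ∈ closure Ω, φ (T, x) = Φ x) →
    AdmP Ω T ρ₀ ρ (fun t x => gradient (fun y => φ (t, y)) x - gradient (fun y => p (t, y)) x) →
    (∀ z ∈ Set.Icc 0 T ×ˢ closure Ω, 0 ≤ p z) →
    (∀ᵐ z ∂(volume.restrict (Set.Ioo 0 T ×ˢ Ω)), p z * (1 - ρ z.1 z.2) = 0) →
    ∀ (ρ' : ℝ → E2 → ℝ) (v' : ℝ → E2 → E2), AdmP Ω T ρ₀ ρ' v' →
      Kin Ω T ρ (fun t x => gradient (fun y => φ (t, y)) x - gradient (fun y => p (t, y)) x)
          - ∫ x in Ω, Φ x * ρ T x ≤ Kin Ω T ρ' v' - ∫ x in Ω, Φ x * ρ' T x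

/-- a pair of facts for a fixed flow -/
theorem final_data (hAdm' : TaskAdm) (hKin' : TaskKin) (hCV : TaskCV) (hProf : TaskProf)
    (hCE : TaskCE)
    (Y Xi : E2 → E2) (V r : E2 → ℝ) (L R h0 L1 R1 h cL cR a b c d lm lp T T' ϑ : ℝ)
    (g : Geo Y Xi V r L R h0) (par : Par V r L R h0 L1 R1 h cL cR a b c d lm lp T ϑ)
    (mass : (∫ u in rect lm lp h, 1 / V u ^ 2) = 1) (p : ℝ × E2 → ℝ)
    (pr : Pres Y V r L R h0 T' p) (hT : T < T')
    (hl : ∀ u ∈ rect L R h0, u 0 < cL → r u < 1) :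
    ∃ (Ω : Set E2) (Φ ρ₀ : E2 → ℝ), IsOpen Ω ∧ Bornology.IsBounded Ω ∧
      ContDiffOn ℝ 1 Φ (closure Ω) ∧ IntegrableOn ρ₀ Ω ∧ (∫ x in Ω, ρ₀ x) = 1 ∧
      (∀ᵐ x ∂(volume.restrict Ω), 0 ≤ ρ₀ x ∧ ρ₀ x ≤ 1) ∧ ¬ MainP Ω T Φ ρ₀ := by
  obtain ⟨ε1, hε1, hA⟩ := hAdm' hCV hProf hCE Y Xi V r L R h0 L1 R1 h cL cR a b c d lm lp T ϑ g par
    mass
  obtain ⟨ε2, hε2, hK⟩ := hKin' hCV hProf Y Xi V r L R h0 L1 R1 h cL cR a b c d lm lp T ϑ g par
  have g1 : Geo Y Xi V r L1 R1 h := g.mono par.o1.le par.o11.le par.hh0.le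
  obtain ⟨hK1, hK2, hK3, hK4⟩ := closure_image g par.o1 par.o11 par.hh0
  set Ω : Set E2 := Y '' rect L1 R1 h with hΩ
  set O : Set E2 := Y '' rect L R h0 with hO
  have hΩo : IsOpen Ω := g1.hopen
  have hOo : IsOpen O := g.hopen
  set φ : ℝ × E2 → ℝ := fun z => (Xi z.2) 0 - z.1 / 2 + p z with hφ
  set ρ₀ : E2 → ℝ := rho Xi V r a b c d T lm lp 0 0 with hρ₀
  have hT0 : 0 < T := par.hT
  have hT0' : 0 < T' := hT0.trans hT
  have hsub : Icc 0 T ×ˢ closure Ω ⊆ Ioo (-T') T' ×ˢ O := by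
    rintro z ⟨hz1, hz2⟩
    exact ⟨⟨by linarith [hz1.1], by linarith [hz1.2]⟩, hK3 hz2⟩
  have hq : ContDiffOn ℝ 1 (fun x => (Xi x) 0) O := by
    have := g.hXi
    have h2 : ContDiff ℝ 1 (fun u : E2 => u 0) := by fun_prop
    exact h2.comp_contDiffOn this
  have hq2 : ContDiffOn ℝ 1 (fun z : ℝ × E2 => (Xi z.2) 0) (Ioo (-T') T' ×ˢ O) :=
    hq.comp contDiff_snd.contDiffOn (fun z hz => hz.2)
  have hφC : ContDiffOn ℝ 1 φ (Ioo (-T') T' ×ˢ O) := by
    have h3 : ContDiff ℝ 1 (fun z : ℝ × E2 => z.1 / 2) := by fun_prop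
    exact (hq2.sub h3.contDiffOn).add pr.c1
  -- facts at points
  have hpt : ∀ t ∈ Ioo 0 T, ∀ x ∈ Ω, ∃ u ∈ rect L R h0, Y u = x ∧ t ∈ Ioo 0 T' := by
    rintro t ht x ⟨u, hu, rfl⟩
    exact ⟨u, rect_mono par.o1.le par.o11.le par.hh0.le hu, rfl, ht.1, ht.2.trans hT⟩
  have hpd : ∀ t ∈ Ioo (-T') T', ∀ x ∈ O, DifferentiableAt ℝ p (t, x) := by
    intro t ht x hx
    exact (pr.c1.contDiffAt ((isOpen_Ioo.prod hOo).mem_nhds ⟨ht, hx⟩)).differentiableAt (by norm_num)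
  have hpx : ∀ t ∈ Ioo (-T') T', ∀ x ∈ O, DifferentiableAt ℝ (fun y => p (t, y)) x := by
    intro t ht x hx
    exact DifferentiableAt.comp x (hpd t ht x hx) (by fun_prop)
  have hpt' : ∀ t ∈ Ioo (-T') T', ∀ x ∈ O, DifferentiableAt ℝ (fun s => p (s, x)) t := by
    intro t ht x hx
    exact DifferentiableAt.comp t (hpd t ht x hx) (by fun_prop)
  have hgrad : ∀ t ∈ Ioo (-T') T', ∀ u ∈ rect L R h0, gradient (fun y => φ (t, y)) (Y u) =
      vel0 Y Xi V (Y u) + gradient (fun y => p (t, y)) (Y u) := by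
    intro t ht u hu
    have e1 := g.grad hu
    have e2 := (hpx t ht (Y u) ⟨u, hu, rfl⟩).hasGradientAt
    have e3 : HasGradientAt (fun y => φ (t, y))
        (vel0 Y Xi V (Y u) + gradient (fun y => p (t, y)) (Y u)) (Y u) := by
      rw [hasGradientAt_iff_hasFDerivAt] at e1 e2 ⊢
      rw [map_add]
      exact (e1.sub_const (t / 2)).add e2
    exact e3.gradient
  have hvel : ∀ t ∈ Ioo 0 T, ∀ x ∈ Ω, vel Y Xi V a b c d T 0 t x =
      gradient (fun y => φ (t, y)) x - gradient (fun y => p (t, y)) x := by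
    intro t ht x hx
    obtain ⟨u, hu, rfl, ht'⟩ := hpt t ht x hx
    rw [hgrad t ⟨by linarith [ht'.1], ht'.2⟩ u hu]
    simp [vel]
  have hA0 := hA 0 le_rfl hε1.le
  set ε := min ε1 ε2 with hεdef
  have hε : 0 < ε := lt_min hε1 hε2
  have hAε := hA ε hε.le (min_le_left _ _)
  have hKε := hK ε hε (min_le_right _ _)
  have hρ₀' := (hA0.2.2.1 0 ⟨le_rfl, hT0.le⟩)
  refine ⟨Ω, fun x => φ (T, x), ρ₀, hΩo, ?_, ?_, ?_, ?_, ?_, ?_⟩
  · exact hK1.isBounded.subset (subset_closure.trans hK2)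
  · refine (hφC.mono hsub).comp (f := fun x : E2 => (T, x)) (by fun_prop) ?_
    intro x hx
    exact ⟨⟨hT0.le, le_rfl⟩, hx⟩
  · exact hρ₀'.1
  · exact hρ₀'.2.1
  · exact hρ₀'.2.2
  · intro hmain
    have hA0' := hA0.congr hΩo hvel
    have hK0' := Kin.congr (ρ := rho Xi V r a b c d T lm lp 0) hΩo hvel
    have hfin := hmain φ p (rho Xi V r a b c d T lm lp 0) (hφC.mono hsub) (pr.c1.mono hsub) ?_
      (fun x _ => rfl) hA0' ?_ ?_ _ _ hAε
    · rw [← hK0'] at hfin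
      have hrT : rho Xi V r a b c d T lm lp 0 T = rho Xi V r a b c d T lm lp ε T := by
        ext x
        simp [rho, et]
      rw [hrT] at hfin
      linarith
    · -- HJB
      intro t ht x hx
      obtain ⟨u, hu, rfl, ht'⟩ := hpt t ht x hx
      have htt : t ∈ Ioo (-T') T' := ⟨by linarith [ht'.1], ht'.2⟩
      rw [hgrad t htt u hu]
      have hd : deriv (fun s => φ (s, Y u)) t = -(1 / 2) + deriv (fun s => p (s, Y u)) t := by
        have e1 := (hpt' t htt (Y u) ⟨u, hu, rfl⟩).hasDerivAt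
        have e2 : HasDerivAt (fun s : ℝ => (Xi (Y u)) 0 - s / 2) (-(1 / 2)) t := by
          have := ((hasDerivAt_id t).div_const 2).const_sub ((Xi (Y u)) 0)
          simpa using this
        exact (e2.add e1).deriv
      rw [hd, pr.eq t ht' u hu]
      set w := vel0 Y Xi V (Y u) with hw
      set gp' := gradient (fun y => p (t, y)) (Y u) with hgp
      have hV := (g.Vpos u hu).1
      have hnw : ‖w‖ ^ 2 = V u ^ 2 := by
        rw [hw]
        unfold vel0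
        rw [g.left u hu, norm_smul, g.n0 u hu, Real.norm_eq_abs, abs_of_pos (by positivity)]
        field_simp
      have e3 : ‖w + gp'‖ ^ 2 = ‖w‖ ^ 2 + 2 * inner ℝ w gp' + ‖gp'‖ ^ 2 := norm_add_sq_real w gp'
      have e4 : inner ℝ (w + gp') gp' = inner ℝ w gp' + ‖gp'‖ ^ 2 := by
        rw [inner_add_left, real_inner_self_eq_norm_sq]
      rw [e3, e4, hnw]
      ring
    · -- nonneg
      rintro ⟨t, x⟩ hz
      have h2 := hsub hz
      obtain ⟨h3, u, hu, rfl⟩ := h2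
      exact pr.nonneg t h3 u hu
    · have hm : MeasurableSet (Ioo 0 T ×ˢ Ω) := measurableSet_Ioo.prod hΩo.measurableSet
      filter_upwards [ae_restrict_mem hm] with z hz
      obtain ⟨t, x⟩ := z
      obtain ⟨u, hu, rfl, ht'⟩ := hpt t hz.1 x hz.2
      have htt : t ∈ Ioo (-T') T' := ⟨by linarith [ht'.1], ht'.2⟩
      by_cases hr1 : r u < 1
      · rw [pr.zero t htt u hu hr1, zero_mul]
      · have hr2 : r u = 1 := le_antisymm (g.rpos u hu).2 (not_lt.1 hr1)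
        have h7 : cL ≤ u 0 := by
          by_contra h
          exact hr1 (hl u hu (not_le.1 h))
        have h8 : u 0 ≤ cR := by
          by_contra h
          exact hr1 (par.Vr u hu (not_le.1 h)).2
        have h9 : rho Xi V r a b c d T lm lp 0 t (Y u) = 1 := by
          have hc : lm + t < (Xi (Y u)) 0 ∧ (Xi (Y u)) 0 < lp + t := by
            rw [g.left u hu]
            have k1 : t < T := hz.1.2
            have k2 : 0 < t := hz.1.1
            have k3 := par.o3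
            have k4 := par.o7
            have k5 := par.o8
            have k6 := par.o9
            constructor <;> linarith
          unfold rho
          rw [if_pos hc, g.left u hu, hr2]
          simp
        simp only at *
        rw [h9]
        ring

end H870N
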