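import Pool.Agent.H870R4.Noz.Fin2

set_option autoImplicit false

open MeasureTheory Set
open scoped ContDiff

namespace H870N

theorem final (hHJ : HJ) (hLoc : TaskLoc) (hPi : TaskPi) (hCut : TaskCut) (hPres : TaskPres)
    (hGeo : GeoEx) (hMass : TaskMass) (hAdm' : TaskAdm) (hKin' : TaskKin) (hCV : TaskCV)
    (hProf : TaskProf) (hCE : TaskCE) :
    ∃ (Ω : Set E2) (T : ℝ) (Φ ρ₀ : E2 → ℝ), 0 < T ∧ IsOpen Ω ∧ Bornology.IsBounded Ω ∧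
      ContDiffOn ℝ 1 Φ (closure Ω) ∧ IntegrableOn ρ₀ Ω ∧ (∫ x in Ω, ρ₀ x) = 1 ∧
      (∀ᵐ x ∂(volume.restrict Ω), 0 ≤ ρ₀ x ∧ ρ₀ x ≤ 1) ∧ ¬ MainP Ω T Φ ρ₀ := by
  obtain ⟨Y, Xi, V, r, Lam, δ, ϑ, hδ, hϑ, g, hLam, hout, hmid, hl1, hl2, hch, hs1, hs2, heik⟩ := hGeo
  have g' : Geo Y Xi V r (1 / 29) 539 (1 / 210) := g.mono (by norm_num) (by norm_num) (by norm_num)
  obtain ⟨-, -, hc3, hc4⟩ := closure_image g (L' := 1 / 29) (R' := 539) (h' := 1 / 210)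
    (by norm_num) (by norm_num) (by norm_num)
  set O : Set E2 := Y '' rect (1 / 30) 540 (1 / 200) with hO
  set O' : Set E2 := Y '' rect (1 / 29) 539 (1 / 210) with hO'
  have hXm : MapsTo Xi O (rect (1 / 30) 540 (1 / 200)) := by
    rintro x ⟨u, hu, rfl⟩
    rw [g.left u hu]
    exact hu
  have hset : {x | x ∈ O ∧ -Real.pi < Lam (Xi x) ∧ Lam (Xi x) < 2 * Real.pi} =
      Y '' {u | u ∈ rect (1 / 30) 540 (1 / 200) ∧ -Real.pi < Lam u ∧ Lam u < 2 * Real.pi} := by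
    ext x
    constructor
    · rintro ⟨⟨u, hu, rfl⟩, h2, h3⟩
      rw [g.left u hu] at h2 h3
      exact ⟨u, ⟨hu, h2, h3⟩, rfl⟩
    · rintro ⟨u, ⟨hu, h2, h3⟩, rfl⟩
      refine ⟨⟨u, hu, rfl⟩, ?_⟩
      rw [g.left u hu]
      exact ⟨h2, h3⟩
  have hrs : rect (1 / 29) 539 (1 / 210) ⊆ rect (1 / 30) 540 (1 / 200) :=
    rect_mono (by norm_num) (by norm_num) (by norm_num)
  obtain ⟨T', p, hT', pc, pn, pz, pe⟩ := hPres hHJ hLoc hPi hCut O O' (fun x => Lam (Xi x))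
    (fun x => 1 / 2 * ((V (Xi x)) ^ 2 - 1)) δ hδ g.hopen g'.hopen hc4 hc3
    ((hLam.of_le (by norm_cast)).comp g.hXi hXm)
    (by
      beta_reduce
      rw [hset]
      exact hs1)
    (by
      beta_reduce
      rw [hset]
      exact contDiffOn_const.mul (hs2.sub contDiffOn_const))
    (by
      rintro x ⟨u, hu, rfl⟩ h1 h2
      beta_reduce at h1 h2 ⊢
      rw [g.left u hu] at h1 h2 ⊢
      rw [heik u hu h1 h2]
      ring)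
    (by
      rintro x ⟨u, hu, rfl⟩ h1
      beta_reduce at h1 ⊢
      rw [g.left u hu] at h1 ⊢
      rw [(hout u hu h1).1]
      ring)
  have pr : Pres Y V r (1 / 29) 539 (1 / 210) T' p :=
    { c1 := pc
      nonneg := fun t ht u hu => pn t ht (Y u) ⟨u, hu, rfl⟩
      zero := fun t ht u hu hr => by
        apply pz t ht (Y u) ⟨u, hu, rfl⟩
        rw [g.left u (hrs hu)]
        by_contra hcon
        rw [not_or, not_lt, not_lt] at hcon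
        exact absurd (hmid u (hrs hu) hcon.1 hcon.2) hr.ne
      eq := fun t ht u hu => by
        have := pe t ht (Y u) ⟨u, hu, rfl⟩
        rw [g.left u (hrs hu)] at this
        exact this }
  obtain ⟨h, hh, hh0, hm⟩ := hMass V (1 / 29) 539 (1 / 210) (1 / 28) 537 (2 / 57) 538 (by norm_num)
    (by norm_num) (by norm_num) (by norm_num) (by norm_num) (by norm_num) g'.hV g'.Vpos
    (by norm_num)
  set T : ℝ := min (T' / 2) (1 / 2000) with hTdef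
  have hT : 0 < T := lt_min (by linarith) (by norm_num)
  have hTT : T < T' := lt_of_le_of_lt (min_le_left _ _) (by linarith)
  have hT2 : T ≤ 1 / 2000 := min_le_right _ _
  have par : Par V r (1 / 29) 539 (1 / 210) (5 / 144) (5389 / 10) h (1 / 28) 537 2 3 (2686 / 5)
      (2688 / 5) (2 / 57) 538 T ϑ :=
    { o1 := by norm_num
      o2 := by norm_num
      o3 := by linarith
      o4 := by norm_num
      o5 := by norm_num
      o6 := by norm_num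
      o7 := by norm_num
      o8 := by norm_num
      o9 := by norm_num
      o10 := by linarith
      o11 := by norm_num
      hT := hT
      hh := hh
      hh0 := hh0
      hϑ := hϑ
      Vl := fun u hu h1 => (hout u (hrs hu) (Or.inl (hl1 u (hrs hu) h1))).1
      Vr := fun u hu h1 => hout u (hrs hu) (Or.inr (hl2 u (hrs hu) h1))
      Vc := fun u hu h1 h2 => hch u (hrs hu) h1 h2 }
  obtain ⟨Ω, Φ, ρ₀, h1⟩ := final_data hAdm' hKin' hCV hProf hCE Y Xi V r (1 / 29) 539 (1 / 210)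
    (5 / 144) (5389 / 10) h (1 / 28) 537 2 3 (2686 / 5) (2688 / 5) (2 / 57) 538 T T' ϑ g' par hm p pr
    hTT (fun u hu h1 => (hout u (hrs hu) (Or.inl (hl1 u (hrs hu) h1))).2)
  exact ⟨Ω, T, Φ, ρ₀, hT, h1⟩

theorem frozen (hHJ : HJ) (hLoc : TaskLoc) (hPi : TaskPi) (hCut : TaskCut) (hPres : TaskPres)
    (hGeo : GeoEx) (hMass : TaskMass) (hAdm' : TaskAdm) (hKin' : TaskKin) (hCV : TaskCV)
    (hProf : TaskProf) (hCE : TaskCE) :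
    ¬ (∀ (d : ℕ), 1 ≤ d →
  ∀ (Ω : Set (EuclideanSpace ℝ (Fin d))), IsOpen Ω → Bornology.IsBounded Ω →
  ∀ (T : ℝ), 0 < T →
  ∀ (Φ : EuclideanSpace ℝ (Fin d) → ℝ), ContDiffOn ℝ 1 Φ (closure Ω) →
  ∀ (ρ₀ : EuclideanSpace ℝ (Fin d) → ℝ), IntegrableOn ρ₀ Ω → (∫ x in Ω, ρ₀ x) = 1 →
    (∀ᵐ x ∂(volume.restrict Ω), 0 ≤ ρ₀ x ∧ ρ₀ x ≤ 1) →
  ∀ (Adm : (ℝ → EuclideanSpace ℝ (Fin d) → ℝ) →
      (ℝ → EuclideanSpace ℝ (Fin d) → EuclideanSpace ℝ (Fin d)) → Prop),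
    (∀ ρ v, Adm ρ v ↔
      (AEMeasurable (Function.uncurry ρ) (volume.restrict (Set.Ioo 0 T ×ˢ Ω)) ∧
       AEMeasurable (Function.uncurry v) (volume.restrict (Set.Ioo 0 T ×ˢ Ω)) ∧
       (∀ t ∈ Set.Icc 0 T, IntegrableOn (ρ t) Ω ∧ (∫ x in Ω, ρ t x) = 1 ∧
          ∀ᵐ x ∂(volume.restrict Ω), 0 ≤ ρ t x ∧ ρ t x ≤ 1) ∧
       (∫⁻ z in Set.Ioo 0 T ×ˢ Ω, ENNReal.ofReal (‖v z.1 z.2‖ ^ 2 * ρ z.1 z.2)) < ⊤ ∧
       (∀ᵐ x ∂(volume.restrict Ω), ρ 0 x = ρ₀ x) ∧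
       (∀ ψ : EuclideanSpace ℝ (Fin d) → ℝ, ContDiffOn ℝ 1 ψ (closure Ω) →
          (∃ K : NNReal, LipschitzOnWith K (fun t => ∫ x in Ω, ψ x * ρ t x) (Set.Icc 0 T)) ∧
          ∀ᵐ t ∂(volume.restrict (Set.Ioo 0 T)),
            HasDerivAt (fun s => ∫ x in Ω, ψ x * ρ s x)
              (∫ x in Ω, inner ℝ (gradient ψ x) (v t x) * ρ t x) t))) →
  ∀ (J : (ℝ → EuclideanSpace ℝ (Fin d) → ℝ) →
      (ℝ → EuclideanSpace ℝ (Fin d) → EuclideanSpace ℝ (Fin d)) → ℝ),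
    (∀ ρ v, J ρ v =
      (∫⁻ z in Set.Ioo 0 T ×ˢ Ω, ENNReal.ofReal (‖v z.1 z.2‖ ^ 2 / 2 * ρ z.1 z.2)).toReal
        - ∫ x in Ω, Φ x * ρ T x) →
  ∀ (φ p : ℝ × EuclideanSpace ℝ (Fin d) → ℝ) (ρ : ℝ → EuclideanSpace ℝ (Fin d) → ℝ),
    ContDiffOn ℝ 1 φ (Set.Icc 0 T ×ˢ closure Ω) →
    ContDiffOn ℝ 1 p (Set.Icc 0 T ×ˢ closure Ω) →
    (∀ t ∈ Set.Ioo 0 T, ∀ x ∈ Ω,
      deriv (fun s => φ (s, x)) t + ‖gradient (fun y => φ (t, y)) x‖ ^ 2 / 2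
        = inner ℝ (gradient (fun y => φ (t, y)) x) (gradient (fun y => p (t, y)) x)) →
    (∀ x ∈ closure Ω, φ (T, x) = Φ x) →
    Adm ρ (fun t x => gradient (fun y => φ (t, y)) x - gradient (fun y => p (t, y)) x) →
    (∀ z ∈ Set.Icc 0 T ×ˢ closure Ω, 0 ≤ p z) →
    (∀ᵐ z ∂(volume.restrict (Set.Ioo 0 T ×ˢ Ω)), p z * (1 - ρ z.1 z.2) = 0) →
    ∀ (ρ' : ℝ → EuclideanSpace ℝ (Fin d) → ℝ)
      (v' : ℝ → EuclideanSpace ℝ (Fin d) → EuclideanSpace ℝ (Fin d)),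
      Adm ρ' v' →
      J ρ (fun t x => gradient (fun y => φ (t, y)) x - gradient (fun y => p (t, y)) x)
        ≤ J ρ' v') := by
  intro H
  obtain ⟨Ω, T, Φ, ρ₀, hT, hΩ, hb, hΦ, hi, hm, h01, hno⟩ := final hHJ hLoc hPi hCut hPres hGeo hMass
    hAdm' hKin' hCV hProf hCE
  apply hno
  intro φ p ρ h1 h2 h3 h4 h5 h6 h7 ρ' v' h8
  exact H 2 (by norm_num) Ω hΩ hb T hT Φ hΦ ρ₀ hi hm h01 (AdmP Ω T ρ₀) (fun _ _ => Iff.rfl)
    (fun ρ v => Kin Ω T ρ v - ∫ x in Ω, Φ x * ρ T x) (fun _ _ => rfl) φ p ρ h1 h2 h3 h4 h5 h6 h7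
    ρ' v' h8

end H870N
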